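import Pool.Agent.Helper1.T1.Goals

/-!
PROJECT T1 (MP_d3128a_ag), packet PHI: the annulus of a node. Everything is computed in the ring of
power series in two variables, which is mapped to `SS F` by `X_0 ↦ q^a T`, `X_1 ↦ q^b / T`, `a + b = L`.
-/

set_option autoImplicit false

noncomputable section

namespace Pool.Agent.Helper66.T1.PHI

open Pool.Agent.Helper1.T1
open Pool.Agent.Helper97.Tate (OO KK SS cf iO evR evx evK sw xs)

section Dick

open Polynomial

/-- the derivative of the Dickson polynomials -/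
theorem dkd {R : Type} [CommRing R] (z z' : R) (h : z * z' = 1) : ∀ n : ℕ,
    (derivative (dickson 1 (1 : R) n)).eval (z + z') * (z - z') = n * (z ^ n - z' ^ n)
  | 0 => by
    have h3 : dickson 1 (1 : R) 0 = C (2 : R) := by
      rw [dickson_zero]
      simp only [Nat.cast_one, map_ofNat]
      norm_num
    rw [h3, derivative_C]
    simp
  | 1 => by simp
  | n + 2 => by
    have h1 := dkd z z' h (n + 1)
    have h0 := dkd z z' h n
    have hd := dickson_one_one_eval_add_inv z z' h (n + 1)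
    rw [dickson_add_two, derivative_sub, derivative_mul, derivative_mul, derivative_X, derivative_C]
    simp only [eval_sub, eval_mul, eval_add, eval_X, eval_C, one_mul, zero_mul, zero_add, hd]
    push_cast at h1 ⊢
    have e : (z ^ (n + 1) + z' ^ (n + 1) + (z + z') * (derivative (dickson 1 (1 : R) (n + 1))).eval
        (z + z') - (derivative (dickson 1 (1 : R) n)).eval (z + z')) * (z - z') =
        (z ^ (n + 1) + z' ^ (n + 1)) * (z - z') + (z + z') *
        ((derivative (dickson 1 (1 : R) (n + 1))).eval (z + z') * (z - z')) -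
        (derivative (dickson 1 (1 : R) n)).eval (z + z') * (z - z') := by ring
    rw [e, h1, h0]
    linear_combination (- (z ^ n) + z' ^ n - (n + 1) * z' ^ n + (n + 1) * z ^ n) * h

end Dick

variable {F : Type} [Field F]

/-- the ring of power series in two variables -/
abbrev R2 (F : Type) [Field F] := MvPowerSeries (Fin 2) F

/-- the images of the variables -/
def imv (F : Type) [Field F] (a b : ℕ) : Fin 2 → MvPowerSeries Unit (LaurentPolynomial F) :=
  ![(PowerSeries.C (LaurentPolynomial.T 1) * PowerSeries.X ^ a : SS F),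
    (PowerSeries.C (LaurentPolynomial.T (-1)) * PowerSeries.X ^ b : SS F)]

theorem has_imv {a b : ℕ} (ha : 0 < a) (hb : 0 < b) : MvPowerSeries.HasSubst (imv F a b) := by
  apply MvPowerSeries.hasSubst_of_constantCoeff_zero
  intro s
  fin_cases s
  · have : PowerSeries.constantCoeff
        (PowerSeries.C (LaurentPolynomial.T 1) * PowerSeries.X ^ a : SS F) = 0 := by
      rw [map_mul, map_pow, PowerSeries.constantCoeff_X, zero_pow ha.ne', mul_zero]
    exact this
  · have : PowerSeries.constantCoeff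
        (PowerSeries.C (LaurentPolynomial.T (-1)) * PowerSeries.X ^ b : SS F) = 0 := by
      rw [map_mul, map_pow, PowerSeries.constantCoeff_X, zero_pow hb.ne', mul_zero]
    exact this

/-- `X_0 ↦ q^a T`, `X_1 ↦ q^b / T` -/
def psi {a b : ℕ} (ha : 0 < a) (hb : 0 < b) : R2 F →ₐ[F] SS F :=
  MvPowerSeries.substAlgHom (has_imv (F := F) ha hb)

theorem prod_imv (a b : ℕ) (d : Fin 2 →₀ ℕ) :
    (d.prod fun s e => (imv F a b s) ^ e : SS F) =
      PowerSeries.C (LaurentPolynomial.T ((d 0 : ℤ) - d 1)) * PowerSeries.X ^ (a * d 0 + b * d 1) := by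
  rw [Finsupp.prod_fintype _ _ (by simp), Fin.prod_univ_two]
  change ((PowerSeries.C (LaurentPolynomial.T 1) * PowerSeries.X ^ a : SS F)) ^ d 0 *
    ((PowerSeries.C (LaurentPolynomial.T (-1)) * PowerSeries.X ^ b : SS F)) ^ d 1 = _
  rw [mul_pow, mul_pow, ← map_pow, ← map_pow, LaurentPolynomial.T_pow, LaurentPolynomial.T_pow,
    ← pow_mul, ← pow_mul, pow_add, sub_eq_add_neg, LaurentPolynomial.T_add, map_mul]
  simp only [mul_one, mul_neg]
  ring

/-- the coefficient at `n` of a Laurent polynomial -/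
def lco (F : Type) [Field F] (n : ℤ) : LaurentPolynomial F →+ F where
  toFun f := f.coeff n
  map_zero' := by simp
  map_add' f g := by simp

theorem coeff_psi {a b : ℕ} (ha : 0 < a) (hb : 0 < b) (g : R2 F) (M : ℕ) (n : ℤ) :
    (PowerSeries.coeff M (psi ha hb g) : LaurentPolynomial F).coeff n =
      finsum fun d : Fin 2 →₀ ℕ =>
        if a * d 0 + b * d 1 = M ∧ (d 0 : ℤ) - d 1 = n then MvPowerSeries.coeff d g else 0 := by
  have h1 : PowerSeries.coeff M (psi ha hb g) = finsum (fun d : Fin 2 →₀ ℕ =>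
      MvPowerSeries.coeff d g • (MvPowerSeries.coeff (Finsupp.single () M)
        (d.prod fun s e => (imv F a b s) ^ e))) := by
    change MvPowerSeries.coeff (Finsupp.single () M) (MvPowerSeries.substAlgHom _ g) = _
    rw [MvPowerSeries.coe_substAlgHom]
    exact MvPowerSeries.coeff_subst (has_imv ha hb) g _
  have h2 := MvPowerSeries.coeff_subst_finite (has_imv (F := F) ha hb) g (Finsupp.single () M)
  change lco F n (PowerSeries.coeff M (psi ha hb g)) = _
  rw [h1, AddMonoidHom.map_finsum _ h2]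
  congr 1
  funext d
  have h3 : MvPowerSeries.coeff (Finsupp.single () M) (d.prod fun s e => (imv F a b s) ^ e) =
      PowerSeries.coeff M (PowerSeries.C (LaurentPolynomial.T ((d 0 : ℤ) - d 1)) *
        PowerSeries.X ^ (a * d 0 + b * d 1) : SS F) := by
    rw [← prod_imv a b d]
    rfl
  rw [h3, PowerSeries.coeff_C_mul, PowerSeries.coeff_X_pow]
  change (MvPowerSeries.coeff d g • (LaurentPolynomial.T ((d 0 : ℤ) - d 1) *
    if M = a * d 0 + b * d 1 then 1 else 0) : LaurentPolynomial F).coeff n = _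
  by_cases h4 : a * d 0 + b * d 1 = M
  · rw [if_pos h4.symm, mul_one]
    by_cases h5 : (d 0 : ℤ) - d 1 = n
    · rw [if_pos ⟨h4, h5⟩, AddMonoidAlgebra.coeff_smul, Finsupp.smul_apply,
        LaurentPolynomial.T_apply, if_pos h5, smul_eq_mul, mul_one]
    · rw [if_neg (fun h => h5 h.2), AddMonoidAlgebra.coeff_smul, Finsupp.smul_apply,
        LaurentPolynomial.T_apply, if_neg h5, smul_zero]
  · rw [if_neg (Ne.symm h4), if_neg (fun h => h4 h.1), mul_zero, smul_zero]
    simp

theorem psi_supp {a b : ℕ} (ha : 0 < a) (hb : 0 < b) (g : R2 F) (N n : ℤ)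
    (h : cf (psi ha hb g) N n ≠ 0) : (a : ℤ) * n ≤ N ∧ -((b : ℤ) * n) ≤ N := by
  by_cases hN : 0 ≤ N
  · rw [cf, if_pos hN, coeff_psi] at h
    by_contra hc
    apply h
    rw [finsum_eq_zero_of_forall_eq_zero]
    intro d
    rw [if_neg]
    rintro ⟨h1, h2⟩
    apply hc
    have h3 : N = a * d 0 + b * d 1 := by
      rw [← Int.toNat_of_nonneg hN, ← h1]
      push_cast
      ring
    have h4 : (0 : ℤ) ≤ a * d 1 := by positivity
    have h5 : (0 : ℤ) ≤ b * d 0 := by positivity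
    have h6 : (0 : ℤ) ≤ a * d 0 := by positivity
    have h7 : (0 : ℤ) ≤ b * d 1 := by positivity
    rw [h3, ← h2]
    constructor <;> linarith
  · rw [cf, if_neg hN] at h
    exact absurd rfl h

theorem psi_val {a b : ℕ} (ha : 0 < a) (hb : 0 < b) (g : R2 F) (d : Fin 2 →₀ ℕ) :
    cf (psi ha hb g) ((a * d 0 + b * d 1 : ℕ) : ℤ) ((d 0 : ℤ) - d 1) = MvPowerSeries.coeff d g := by
  rw [cf, if_pos (by positivity), coeff_psi, Int.toNat_natCast, finsum_eq_single _ d]
  · rw [if_pos ⟨rfl, rfl⟩]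
  · intro d' hd'
    rw [if_neg]
    rintro ⟨h1, h2⟩
    apply hd'
    have h3 : ((a : ℤ) + b) * (d' 1 - d 1) = 0 := by
      have h4 : (a : ℤ) * d' 0 + b * d' 1 = a * d 0 + b * d 1 := by exact_mod_cast h1
      have h5 : (d' 0 : ℤ) = d 0 - d 1 + d' 1 := by linarith
      rw [h5] at h4
      linarith
    have h6 : (d' 1 : ℤ) - d 1 = 0 := by
      rcases mul_eq_zero.mp h3 with h | h
      · omega
      · exact h
    have h7 : d' 1 = d 1 := by omega
    have h8 : d' 0 = d 0 := by omega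
    ext s
    fin_cases s
    · exact h8
    · exact h7

/-! ### The edges -/

/-- the images of the variables: `X_i ↦ X`, the other one to zero -/
def edv (F : Type) [Field F] (i : Fin 2) : Fin 2 → MvPowerSeries Unit F :=
  fun s => if s = i then MvPowerSeries.X () else 0

theorem has_edv (i : Fin 2) : MvPowerSeries.HasSubst (edv F i) := by
  apply MvPowerSeries.hasSubst_of_constantCoeff_zero
  intro s
  unfold edv
  split_ifs
  · exact MvPowerSeries.constantCoeff_X _
  · exact map_zero _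

/-- the edge -/
def ed (i : Fin 2) : R2 F →ₐ[F] PowerSeries F := MvPowerSeries.substAlgHom (has_edv (F := F) i)

/-- a series in one of the variables -/
def im (i : Fin 2) : PowerSeries F →ₐ[F] R2 F := PowerSeries.toMvPowerSeries i

theorem ed_im_self (i : Fin 2) (f : PowerSeries F) : ed i (im i f) = f := by
  change MvPowerSeries.substAlgHom _ (PowerSeries.toMvPowerSeries i f) = f
  rw [MvPowerSeries.coe_substAlgHom, PowerSeries.subst_toMvPowerSeries (has_edv i)]
  unfold edv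
  rw [if_pos rfl]
  exact PowerSeries.X_subst f

theorem ed_im_ne {i j : Fin 2} (hij : j ≠ i) (f : PowerSeries F) :
    ed i (im j f) = PowerSeries.C (PowerSeries.constantCoeff f) := by
  change MvPowerSeries.substAlgHom _ (PowerSeries.toMvPowerSeries j f) = _
  rw [MvPowerSeries.coe_substAlgHom, PowerSeries.subst_toMvPowerSeries (has_edv i)]
  unfold edv
  rw [if_neg hij, PowerSeries.subst_zero_eq_C_constantCoeff]
  rfl

theorem coeff_ed (i : Fin 2) (g : R2 F) (n : ℕ) :
    PowerSeries.coeff n (ed i g) = MvPowerSeries.coeff (Finsupp.single i n) g := by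
  change MvPowerSeries.coeff (Finsupp.single () n) (MvPowerSeries.substAlgHom _ g) = _
  rw [MvPowerSeries.coe_substAlgHom, MvPowerSeries.coeff_subst (has_edv i),
    finsum_eq_single _ (Finsupp.single i n)]
  · rw [Finsupp.prod_single_index (by simp)]
    unfold edv
    rw [if_pos rfl]
    have : MvPowerSeries.coeff (Finsupp.single () n) ((MvPowerSeries.X () : MvPowerSeries Unit F) ^ n)
        = PowerSeries.coeff n ((PowerSeries.X : PowerSeries F) ^ n) := rfl
    rw [this, PowerSeries.coeff_X_pow, if_pos rfl, smul_eq_mul, mul_one]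
  · intro d hd
    rw [Finsupp.prod_fintype _ _ (by simp), Fin.prod_univ_two]
    by_cases h1 : ∃ j, j ≠ i ∧ d j ≠ 0
    · obtain ⟨j, hj, hj'⟩ := h1
      have h2 : edv F i 0 ^ d 0 * edv F i 1 ^ d 1 = 0 := by
        have h3 : edv F i j ^ d j = 0 := by
          unfold edv
          rw [if_neg hj, zero_pow hj']
        fin_cases j
        · simp only [Fin.zero_eta] at h3
          rw [h3, zero_mul]
        · simp only [Fin.mk_one] at h3
          rw [h3, mul_zero]
      rw [h2, map_zero, smul_zero]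
    · push Not at h1
      have h2 : d = Finsupp.single i (d i) := by
        ext j
        by_cases hj : j = i
        · rw [hj, Finsupp.single_eq_same]
        · rw [Finsupp.single_eq_of_ne hj]
          exact h1 j hj
      have h3 : d i ≠ n := by
        intro h
        apply hd
        rw [h2, h]
      have h4 : edv F i 0 ^ d 0 * edv F i 1 ^ d 1 = (MvPowerSeries.X () : MvPowerSeries Unit F) ^ d i := by
        unfold edv
        fin_cases i
        · have := h1 1 (by simp)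
          simp [this]
        · have := h1 0 (by simp)
          simp [this]
      rw [h4]
      have : MvPowerSeries.coeff (Finsupp.single () n)
          ((MvPowerSeries.X () : MvPowerSeries Unit F) ^ (d i))
          = PowerSeries.coeff n ((PowerSeries.X : PowerSeries F) ^ (d i)) := rfl
      rw [this, PowerSeries.coeff_X_pow, if_neg (Ne.symm h3), smul_zero]

theorem psi_ed0 {a b : ℕ} (ha : 0 < a) (hb : 0 < b) (g : R2 F) (n : ℕ) :
    cf (psi ha hb g) ((a : ℤ) * n) n = PowerSeries.coeff n (ed 0 g) := by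
  have h := psi_val ha hb g (Finsupp.single 0 n)
  rw [coeff_ed, ← h]
  simp

theorem psi_ed1 {a b : ℕ} (ha : 0 < a) (hb : 0 < b) (g : R2 F) (n : ℕ) :
    cf (psi ha hb g) ((b : ℤ) * n) (-(n : ℤ)) = PowerSeries.coeff n (ed 1 g) := by
  have h := psi_val ha hb g (Finsupp.single 1 n)
  rw [coeff_ed, ← h]
  simp

theorem psi_X0 {a b : ℕ} (ha : 0 < a) (hb : 0 < b) :
    psi (F := F) ha hb (MvPowerSeries.X 0) =
      PowerSeries.C (LaurentPolynomial.T 1) * PowerSeries.X ^ a := by
  change MvPowerSeries.substAlgHom _ _ = _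
  rw [MvPowerSeries.substAlgHom_X]
  rfl

theorem psi_X1 {a b : ℕ} (ha : 0 < a) (hb : 0 < b) :
    psi (F := F) ha hb (MvPowerSeries.X 1) =
      PowerSeries.C (LaurentPolynomial.T (-1)) * PowerSeries.X ^ b := by
  change MvPowerSeries.substAlgHom _ _ = _
  rw [MvPowerSeries.substAlgHom_X]
  rfl

/-- values of polynomials -/
theorem Ph_psi {a b : ℕ} (ha : 0 < a) (hb : 0 < b) (x y : R2 F) (p : MvPolynomial (Fin 2) F) :
    Ph (psi ha hb x) (psi ha hb y) p = psi ha hb (MvPolynomial.aeval ![x, y] p) := by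
  have h1 : psi ha hb (MvPolynomial.aeval ![x, y] p) =
      MvPolynomial.aeval (fun i => psi ha hb (![x, y] i)) p := by
    rw [← MvPolynomial.comp_aeval]
    rfl
  rw [h1, Ph, MvPolynomial.aeval_def]
  have h2 : (fun i => psi ha hb (![x, y] i)) = ![psi ha hb x, psi ha hb y] := by
    funext i
    fin_cases i <;> rfl
  have h3 : (PowerSeries.C : LaurentPolynomial F →+* SS F).comp LaurentPolynomial.C =
      algebraMap F (SS F) := by
    ext1 r
    rw [PowerSeries.algebraMap_apply, ← LaurentPolynomial.C_eq_algebraMap]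
    rfl
  rw [h2, h3]

theorem ed_aeval (i : Fin 2) (x y : R2 F) (p : MvPolynomial (Fin 2) F) :
    ed i (MvPolynomial.aeval ![x, y] p) = MvPolynomial.aeval ![ed i x, ed i y] p := by
  have h1 : ed i (MvPolynomial.aeval ![x, y] p) =
      MvPolynomial.aeval (fun j => ed i (![x, y] j)) p := by
    rw [← MvPolynomial.comp_aeval]
    rfl
  rw [h1]
  congr 2
  funext j
  fin_cases j <;> rfl

/-! ### The elements -/

/-- inverse power series with constant coefficient one -/
theorem rinv {r : PowerSeries F} (h : PowerSeries.constantCoeff r = 1) : r * r⁻¹ = 1 :=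
  PowerSeries.mul_inv_cancel r (by rw [h]; exact one_ne_zero)

theorem cinv {r : PowerSeries F} (h : PowerSeries.constantCoeff r = 1) :
    PowerSeries.constantCoeff r⁻¹ = 1 := by
  have h1 := congrArg PowerSeries.constantCoeff (rinv h)
  rwa [map_mul, h, one_mul, map_one] at h1

theorem cres {r : PowerSeries F} (h : PowerSeries.constantCoeff r = 1) (c : F) :
    PowerSeries.constantCoeff (PowerSeries.rescale c r) = 1 := by
  rw [← PowerSeries.coeff_zero_eq_constantCoeff_apply, PowerSeries.coeff_rescale, pow_zero, one_mul,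
    PowerSeries.coeff_zero_eq_constantCoeff_apply, h]

theorem uinv {r : PowerSeries F} (h : PowerSeries.constantCoeff r = 1) (v : Fˣ) :
    (PowerSeries.C (v : F) * r)⁻¹ = PowerSeries.C ((v⁻¹ : Fˣ) : F) * r⁻¹ := by
  symm
  rw [PowerSeries.eq_inv_iff_mul_eq_one]
  · rw [mul_mul_mul_comm, ← map_mul, Units.inv_mul, map_one, mul_comm r⁻¹, rinv h, one_mul]
  · rw [map_mul, h, mul_one, PowerSeries.constantCoeff_C]
    exact v.ne_zero

/-- the abstract computation -/
theorem key {R : Type} [CommRing R] (k : ℕ) (Z Z' A A' B B' X Y : R)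
    (hZ : Z * Z' = 1) (hA : A * A' = 1) (hB : B * B' = 1)
    (hZ2 : Z ^ (2 * (k * (k - 1))) = 1)
    (hX : A ^ (k * (k - 1)) - A' ^ (k * (k - 1)) = X)
    (hY : B ^ (k * (k - 1)) - B' ^ (k * (k - 1)) = Z ^ (k * (k - 1)) * Y) :
    (Polynomial.dickson 1 (1 : R) k).eval ((Z * (A * B)) ^ (k - 1) + (Z' * (A' * B')) ^ (k - 1)) -
      (Polynomial.dickson 1 (1 : R) (k - 1)).eval ((Z * (B * A')) ^ k + (Z' * (B' * A)) ^ k) =
      X * Y := by
  have h1 : (Z * (A * B)) ^ (k - 1) * (Z' * (A' * B')) ^ (k - 1) = 1 := by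
    rw [← mul_pow]
    have : Z * (A * B) * (Z' * (A' * B')) = (Z * Z') * (A * A') * (B * B') := by ring
    rw [this, hZ, hA, hB, one_mul, one_mul, one_pow]
  have h2 : (Z * (B * A')) ^ k * (Z' * (B' * A)) ^ k = 1 := by
    rw [← mul_pow]
    have : Z * (B * A') * (Z' * (B' * A)) = (Z * Z') * (A * A') * (B * B') := by ring
    rw [this, hZ, hA, hB, one_mul, one_mul, one_pow]
  rw [Polynomial.dickson_one_one_eval_add_inv _ _ h1, Polynomial.dickson_one_one_eval_add_inv _ _ h2]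
  simp only [← pow_mul]
  rw [mul_comm (k - 1) k]
  set N := k * (k - 1)
  have h3 : Z' ^ N = Z ^ N := by
    have h4 : Z ^ N * Z' ^ N = 1 := by rw [← mul_pow, hZ, one_pow]
    have h5 : Z ^ N * Z ^ N = 1 := by rw [← pow_add, ← two_mul, hZ2]
    calc Z' ^ N = (Z ^ N * Z ^ N) * Z' ^ N := by rw [h5, one_mul]
      _ = Z ^ N * (Z ^ N * Z' ^ N) := by ring
      _ = Z ^ N := by rw [h4, mul_one]
  have h5 : Z ^ N * Z ^ N = 1 := by rw [← pow_add, ← two_mul, hZ2]
  simp only [mul_pow, h3]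
  have h6 : Z ^ N * (A ^ N * B ^ N) + Z ^ N * (A' ^ N * B' ^ N) -
      (Z ^ N * (B ^ N * A' ^ N) + Z ^ N * (B' ^ N * A ^ N)) =
      Z ^ N * ((A ^ N - A' ^ N) * (B ^ N - B' ^ N)) := by ring
  rw [h6, hX, hY]
  linear_combination (X * Y) * h5

variable (k : ℕ) (ζ : Fˣ) (ρ : PowerSeries F)

/-- the root of unity `c` -/
def cc : F := (ζ : F) ^ (k * (k - 1))

def eZ : R2 F := algebraMap F (R2 F) ζ
def eZ' : R2 F := algebraMap F (R2 F) ((ζ⁻¹ : Fˣ) : F)
def eA : R2 F := im 0 ρ
def eA' : R2 F := im 0 ρ⁻¹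
def eB : R2 F := im 1 (PowerSeries.rescale (cc k ζ) ρ)
def eB' : R2 F := im 1 (PowerSeries.rescale (cc k ζ) ρ)⁻¹
def ex : R2 F := (eZ ζ * (eA ρ * eB k ζ ρ)) ^ (k - 1) + (eZ' ζ * (eA' ρ * eB' k ζ ρ)) ^ (k - 1)
def ey : R2 F := (eZ ζ * (eB k ζ ρ * eA' ρ)) ^ k + (eZ' ζ * (eB' k ζ ρ * eA ρ)) ^ k

theorem hZZ : eZ ζ * eZ' ζ = 1 := by
  rw [eZ, eZ', ← map_mul, Units.mul_inv, map_one]

variable {k ζ ρ}

theorem hAA (h : IsRho k ρ) : eA ρ * eA' ρ = 1 := by
  rw [eA, eA', ← map_mul, rinv h.1, map_one]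

theorem hBB (h : IsRho k ρ) : eB k ζ ρ * eB' k ζ ρ = 1 := by
  rw [eB, eB', ← map_mul, rinv (cres h.1 _), map_one]

theorem rho1 (h : IsRho k ρ) : ρ ^ (k * (k - 1)) - ρ⁻¹ ^ (k * (k - 1)) = PowerSeries.X := by
  set N := k * (k - 1) with hN
  have h2 : ρ ^ (2 * N) = 1 + PowerSeries.X * ρ ^ N := h.2.2
  have h1 : ρ ^ N * ρ⁻¹ ^ N = 1 := by rw [← mul_pow, rinv h.1, one_pow]
  have h3 : ρ ^ (2 * N) = ρ ^ N * ρ ^ N := by rw [two_mul, pow_add]
  rw [h3] at h2
  linear_combination (ρ⁻¹ ^ N) * h2 + (PowerSeries.X - ρ ^ N) * h1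

theorem rho2 (h : IsRho k ρ) (c : F) : (PowerSeries.rescale c ρ) ^ (k * (k - 1)) -
    (PowerSeries.rescale c ρ)⁻¹ ^ (k * (k - 1)) = PowerSeries.C c * PowerSeries.X := by
  set N := k * (k - 1) with hN
  have h2 : (PowerSeries.rescale c ρ) ^ (2 * N) =
      1 + PowerSeries.C c * PowerSeries.X * (PowerSeries.rescale c ρ) ^ N := by
    have := congrArg (PowerSeries.rescale c) h.2.2
    rw [map_pow, map_add, map_one, map_mul, map_pow, PowerSeries.rescale_X] at this
    exact this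
  have h1 : (PowerSeries.rescale c ρ) ^ N * (PowerSeries.rescale c ρ)⁻¹ ^ N = 1 := by
    rw [← mul_pow, rinv (cres h.1 _), one_pow]
  have h3 : (PowerSeries.rescale c ρ) ^ (2 * N) =
      (PowerSeries.rescale c ρ) ^ N * (PowerSeries.rescale c ρ) ^ N := by rw [two_mul, pow_add]
  rw [h3] at h2
  linear_combination ((PowerSeries.rescale c ρ)⁻¹ ^ N) * h2 +
    (PowerSeries.C c * PowerSeries.X - (PowerSeries.rescale c ρ) ^ N) * h1

theorem im_X (i : Fin 2) : im (F := F) i PowerSeries.X = MvPowerSeries.X i :=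
  PowerSeries.toMvPowerSeries_X i

theorem hXX (h : IsRho k ρ) :
    eA ρ ^ (k * (k - 1)) - eA' ρ ^ (k * (k - 1)) = (MvPowerSeries.X 0 : R2 F) := by
  rw [eA, eA', ← map_pow, ← map_pow, ← map_sub, rho1 h, im_X]

theorem hYY (h : IsRho k ρ) : eB k ζ ρ ^ (k * (k - 1)) - eB' k ζ ρ ^ (k * (k - 1)) =
    eZ ζ ^ (k * (k - 1)) * (MvPowerSeries.X 1 : R2 F) := by
  rw [eB, eB', ← map_pow (im 1), ← map_pow (im 1), ← map_sub, rho2 h, map_mul, im_X, eZ, ← map_pow]
  congr 1
  change PowerSeries.toMvPowerSeries (1 : Fin 2) (PowerSeries.C (cc k ζ)) =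
    (MvPowerSeries.C (cc k ζ) : R2 F)
  simp

theorem hZ2 (h : IsNode k ζ) : eZ ζ ^ (2 * (k * (k - 1))) = 1 := by
  have h1 : (ζ : F) ^ (2 * (k * (k - 1))) = 1 := by
    have := congrArg (fun v : Fˣ => (v : F)) h.1
    simpa using this
  rw [eZ, ← map_pow, h1, map_one]

theorem rel (h : IsNode k ζ) (h' : IsRho k ρ) :
    (Polynomial.dickson 1 (1 : R2 F) k).eval (ex k ζ ρ) -
      (Polynomial.dickson 1 (1 : R2 F) (k - 1)).eval (ey k ζ ρ) =
      (MvPowerSeries.X 0 : R2 F) * MvPowerSeries.X 1 :=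
  key k (eZ ζ) (eZ' ζ) (eA ρ) (eA' ρ) (eB k ζ ρ) (eB' k ζ ρ) _ _ (hZZ ζ) (hAA h') (hBB h') (hZ2 h)
    (hXX h') (hYY h')

theorem hom_dickson {R S : Type} [CommRing R] [CommRing S] (φ : R →+* S) (n : ℕ) (x : R) :
    φ ((Polynomial.dickson 1 (1 : R) n).eval x) = (Polynomial.dickson 1 (1 : S) n).eval (φ x) := by
  rw [← Polynomial.eval₂_at_apply, Polynomial.eval₂_eq_eval_map, Polynomial.map_dickson, map_one]

theorem hom_ddickson {R S : Type} [CommRing R] [CommRing S] (φ : R →+* S) (n : ℕ) (x : R) :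
    φ ((Polynomial.derivative (Polynomial.dickson 1 (1 : R) n)).eval x) =
      (Polynomial.derivative (Polynomial.dickson 1 (1 : S) n)).eval (φ x) := by
  rw [← Polynomial.eval₂_at_apply, Polynomial.eval₂_eq_eval_map, ← Polynomial.derivative_map,
    Polynomial.map_dickson, map_one]

/-! ### The derivative -/

/-- the value at `s = 0` -/
def g00 (u : Fˣ) : SS F →+* OO F :=
  PowerSeries.map ((PowerSeries.constantCoeff (R := F)).comp (evR u))

theorem cc_evx (u : Fˣ) (f : SS F) : PowerSeries.constantCoeff (evx u f) = g00 u f := by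
  ext j
  rw [← PowerSeries.coeff_zero_eq_constantCoeff_apply, evx, g00, PowerSeries.coeff_map]
  change PowerSeries.coeff j (PowerSeries.coeff 0 (sw (PowerSeries.map (evR u) f))) = _
  simp only [sw, RingHom.coe_mk, MonoidHom.coe_mk, OneHom.coe_mk, PowerSeries.coeff_mk,
    PowerSeries.coeff_map, RingHom.comp_apply, PowerSeries.coeff_zero_eq_constantCoeff_apply]

theorem cc_evK (u : Fˣ) (f : SS F) :
    PowerSeries.constantCoeff (evK u f) = algebraMap (OO F) (KK F) (g00 u f) := by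
  rw [← cc_evx, evK, RingHom.comp_apply, ← PowerSeries.coeff_zero_eq_constantCoeff_apply,
    PowerSeries.coeff_map, PowerSeries.coeff_zero_eq_constantCoeff_apply]

theorem g00_T1 (u : Fˣ) (a : ℕ) :
    g00 u (PowerSeries.C (LaurentPolynomial.T 1) * PowerSeries.X ^ a) =
      PowerSeries.C (u : F) * PowerSeries.X ^ a := by
  rw [g00, map_mul, map_pow, PowerSeries.map_X, PowerSeries.map_C, RingHom.comp_apply, evR,
    LaurentPolynomial.eval₂_T, zpow_one]
  simp [xs]

theorem g00_T2 (u : Fˣ) (a : ℕ) :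
    g00 u (PowerSeries.C (LaurentPolynomial.T (-1)) * PowerSeries.X ^ a) =
      PowerSeries.C ((u⁻¹ : Fˣ) : F) * PowerSeries.X ^ a := by
  rw [g00, map_mul, map_pow, PowerSeries.map_X, PowerSeries.map_C, RingHom.comp_apply, evR,
    LaurentPolynomial.eval₂_T, zpow_neg, zpow_one]
  congr 2
  have h1 : PowerSeries.constantCoeff ((xs u : (PowerSeries F)ˣ) : PowerSeries F) = u := by
    simp [xs]
  have h2 : PowerSeries.constantCoeff ((xs u : (PowerSeries F)ˣ) : PowerSeries F) *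
      PowerSeries.constantCoeff (((xs u)⁻¹ : (PowerSeries F)ˣ) : PowerSeries F) = 1 := by
    rw [← map_mul, Units.mul_inv, map_one]
  rw [h1] at h2
  rw [Units.val_inv_eq_inv_val]
  exact eq_inv_of_mul_eq_one_right h2

/-- constants of the images of the series -/
theorem cphi (φ : R2 F →+* OO F) (i : Fin 2) (h : PowerSeries.constantCoeff (φ (MvPowerSeries.X i)) = 0)
    {r : PowerSeries F} (hr : PowerSeries.constantCoeff r = 1) :
    PowerSeries.constantCoeff (φ (im i r)) = 1 := by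
  have h1 : PowerSeries.X ∣ r - 1 := by
    rw [PowerSeries.X_dvd_iff, map_sub, hr, map_one, sub_self]
  obtain ⟨q, hq⟩ := h1
  have h2 : r = 1 + PowerSeries.X * q := by rw [← hq]; ring
  rw [h2, map_add, map_one, map_mul, im_X, map_add, map_one, map_mul, map_add, map_one, map_mul, h,
    zero_mul, add_zero]

theorem der_ne [CharZero F] {a b : ℕ} (ha : 0 < a) (hb : 0 < b) (hk : 3 ≤ k) (h : IsNode k ζ)
    (h' : IsRho k ρ) (hab : a ≠ b) (u : Fˣ) :
    g00 u (psi ha hb ((Polynomial.derivative (Polynomial.dickson 1 (1 : R2 F) k)).eval (ex k ζ ρ))) ≠ 0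
    := by
  intro h0
  set φ : R2 F →+* OO F := (g00 u).comp (psi ha hb : R2 F →ₐ[F] SS F).toRingHom with hφ
  have hX0 : φ (MvPowerSeries.X 0) = PowerSeries.C (u : F) * PowerSeries.X ^ a := by
    change g00 u (psi ha hb (MvPowerSeries.X 0)) = _
    rw [psi_X0, g00_T1]
  have hX1 : φ (MvPowerSeries.X 1) = PowerSeries.C ((u⁻¹ : Fˣ) : F) * PowerSeries.X ^ b := by
    change g00 u (psi ha hb (MvPowerSeries.X 1)) = _
    rw [psi_X1, g00_T2]
  have c0 : PowerSeries.constantCoeff (φ (MvPowerSeries.X 0)) = 0 := by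
    rw [hX0, map_mul, map_pow, PowerSeries.constantCoeff_X, zero_pow ha.ne', mul_zero]
  have c1 : PowerSeries.constantCoeff (φ (MvPowerSeries.X 1)) = 0 := by
    rw [hX1, map_mul, map_pow, PowerSeries.constantCoeff_X, zero_pow hb.ne', mul_zero]
  have h1 : φ ((Polynomial.derivative (Polynomial.dickson 1 (1 : R2 F) k)).eval (ex k ζ ρ)) = 0 := h0
  rw [hom_ddickson φ] at h1
  set Z := φ (eZ ζ) with hZ
  set Z' := φ (eZ' ζ) with hZ'
  set A := φ (eA ρ) with hA
  set A' := φ (eA' ρ) with hA'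
  set B := φ (eB k ζ ρ) with hB
  set B' := φ (eB' k ζ ρ) with hB'
  have zz : Z * Z' = 1 := by rw [hZ, hZ', ← map_mul, hZZ, map_one]
  have aa : A * A' = 1 := by rw [hA, hA', ← map_mul, hAA h', map_one]
  have bb : B * B' = 1 := by rw [hB, hB', ← map_mul, hBB h', map_one]
  have hx : φ (ex k ζ ρ) = (Z * (A * B)) ^ (k - 1) + (Z' * (A' * B')) ^ (k - 1) := by
    rw [ex, map_add, map_pow, map_pow, map_mul, map_mul, map_mul, map_mul]
  have h2 : (Z * (A * B)) ^ (k - 1) * (Z' * (A' * B')) ^ (k - 1) = 1 := by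
    rw [← mul_pow]
    have : Z * (A * B) * (Z' * (A' * B')) = (Z * Z') * (A * A') * (B * B') := by ring
    rw [this, zz, aa, bb, one_mul, one_mul, one_pow]
  have h3 := dkd _ _ h2 k
  rw [← hx, h1, zero_mul] at h3
  have hk0 : ((k : ℕ) : OO F) ≠ 0 := by
    have : CharZero (OO F) := by
      refine ⟨fun m n hmn => ?_⟩
      have := congrArg (PowerSeries.constantCoeff (R := F)) hmn
      rw [map_natCast, map_natCast] at this
      exact Nat.cast_injective this
    exact Nat.cast_ne_zero.mpr (by omega)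
  have h4 : ((Z * (A * B)) ^ (k - 1)) ^ k = ((Z' * (A' * B')) ^ (k - 1)) ^ k := by
    rcases mul_eq_zero.mp h3.symm with h5 | h5
    · exact absurd h5 hk0
    · exact sub_eq_zero.mp h5
  rw [← pow_mul, ← pow_mul, mul_comm (k - 1) k] at h4
  set N := k * (k - 1) with hN
  have z2 : Z ^ N * Z ^ N = 1 := by
    rw [← pow_add, ← two_mul, hZ, ← map_pow, hN, hZ2 h, map_one]
  have zn : Z' ^ N = Z ^ N := by
    have h5 : Z ^ N * Z' ^ N = 1 := by rw [← mul_pow, zz, one_pow]
    calc Z' ^ N = (Z ^ N * Z ^ N) * Z' ^ N := by rw [z2, one_mul]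
      _ = Z ^ N * (Z ^ N * Z' ^ N) := by ring
      _ = Z ^ N := by rw [h5, mul_one]
  have aN : A ^ N * A' ^ N = 1 := by rw [← mul_pow, aa, one_pow]
  have bN : B ^ N * B' ^ N = 1 := by rw [← mul_pow, bb, one_pow]
  rw [mul_pow, mul_pow, mul_pow, mul_pow, zn] at h4
  have h5 : A ^ N * B ^ N = A' ^ N * B' ^ N := by
    calc A ^ N * B ^ N = Z ^ N * (Z ^ N * (A ^ N * B ^ N)) := by rw [← mul_assoc, z2, one_mul]
      _ = Z ^ N * (Z ^ N * (A' ^ N * B' ^ N)) := by rw [h4]
      _ = A' ^ N * B' ^ N := by rw [← mul_assoc, z2, one_mul]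
  have h6 : (A ^ N * B ^ N - 1) * (A ^ N * B ^ N + 1) = 0 := by
    have : (A ^ N * B ^ N) * (A ^ N * B ^ N) = 1 := by
      nth_rewrite 2 [h5]
      calc A ^ N * B ^ N * (A' ^ N * B' ^ N) = (A ^ N * A' ^ N) * (B ^ N * B' ^ N) := by ring
        _ = 1 := by rw [aN, bN, one_mul]
    linear_combination this
  have ca : PowerSeries.constantCoeff A = 1 := cphi φ 0 c0 h'.1
  have cb : PowerSeries.constantCoeff B = 1 := cphi φ 1 c1 (cres h'.1 _)
  have h7 : A ^ N * B ^ N = 1 := by
    rcases mul_eq_zero.mp h6 with h8 | h8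
    · exact sub_eq_zero.mp h8
    · exfalso
      have := congrArg (PowerSeries.constantCoeff (R := F)) h8
      rw [map_add, map_mul, map_pow, map_pow, ca, cb, one_pow, one_mul, map_one, map_zero] at this
      have h9 : (2 : F) = 0 := by rw [← this]; norm_num
      exact two_ne_zero h9
  have hb1 : B ^ N = A' ^ N := by
    calc B ^ N = (A ^ N * A' ^ N) * B ^ N := by rw [aN, one_mul]
      _ = (A ^ N * B ^ N) * A' ^ N := by ring
      _ = A' ^ N := by rw [h7, one_mul]
  have hb2 : B' ^ N = A ^ N := by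
    calc B' ^ N = (A ^ N * B ^ N) * B' ^ N := by rw [h7, one_mul]
      _ = A ^ N * (B ^ N * B' ^ N) := by ring
      _ = A ^ N := by rw [bN, mul_one]
  have e1 : A ^ N - A' ^ N = PowerSeries.C (u : F) * PowerSeries.X ^ a := by
    rw [← hX0, ← hXX h', map_sub, map_pow, map_pow]
  have e2 : B ^ N - B' ^ N = PowerSeries.C (cc k ζ) * (PowerSeries.C ((u⁻¹ : Fˣ) : F) *
      PowerSeries.X ^ b) := by
    have h8 : Z ^ N = PowerSeries.C (cc k ζ) := by
      have h9 : ∀ v : F, φ (algebraMap F (R2 F) v) = PowerSeries.C v := by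
        intro v
        change g00 u (psi ha hb (algebraMap F (R2 F) v)) = _
        rw [AlgHom.commutes]
        have : algebraMap F (SS F) v = PowerSeries.C (LaurentPolynomial.C v) := by
          rw [PowerSeries.algebraMap_apply, ← LaurentPolynomial.C_eq_algebraMap]
        rw [this, g00, PowerSeries.map_C, RingHom.comp_apply, evR, LaurentPolynomial.eval₂_C,
          PowerSeries.constantCoeff_C]
      rw [hZ, eZ, h9, ← map_pow, cc]
    rw [← hX1, ← h8]
    have := congrArg φ (hYY (ζ := ζ) h')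
    rw [map_sub, map_pow, map_pow, map_mul, map_pow] at this
    exact this
  rw [hb1, hb2] at e2
  have e3 : PowerSeries.C (cc k ζ) * (PowerSeries.C ((u⁻¹ : Fˣ) : F) * PowerSeries.X ^ b) =
      -(PowerSeries.C (u : F) * PowerSeries.X ^ a) := by
    rw [← e1, ← e2]
    ring
  have e4 := congrArg (PowerSeries.coeff a) e3
  rw [PowerSeries.coeff_C_mul, PowerSeries.coeff_C_mul, PowerSeries.coeff_X_pow, if_neg hab, mul_zero,
    mul_zero, map_neg, PowerSeries.coeff_C_mul, PowerSeries.coeff_X_pow, if_pos rfl, mul_one] at e4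
  exact u.ne_zero (neg_eq_zero.mp e4.symm)

/-! ### The statement -/

theorem ed_ex (i : Fin 2) : ed i (ex k ζ ρ) =
    (PowerSeries.C (ζ : F) * (ed i (eA ρ) * ed i (eB k ζ ρ))) ^ (k - 1) +
      (PowerSeries.C ((ζ⁻¹ : Fˣ) : F) * (ed i (eA' ρ) * ed i (eB' k ζ ρ))) ^ (k - 1) := by
  rw [ex, map_add, map_pow, map_pow, map_mul, map_mul, map_mul, map_mul, eZ, eZ', AlgHom.commutes,
    AlgHom.commutes]
  rfl

theorem ed_ey (i : Fin 2) : ed i (ey k ζ ρ) =
    (PowerSeries.C (ζ : F) * (ed i (eB k ζ ρ) * ed i (eA' ρ))) ^ k +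
      (PowerSeries.C ((ζ⁻¹ : Fˣ) : F) * (ed i (eB' k ζ ρ) * ed i (eA ρ))) ^ k := by
  rw [ey, map_add, map_pow, map_pow, map_mul, map_mul, map_mul, map_mul, eZ, eZ', AlgHom.commutes,
    AlgHom.commutes]
  rfl

theorem cnj1 (hk : 3 ≤ k) (h : IsNode k ζ) : (cnj k ζ) ^ (k - 1) = ζ ^ (k - 1) := by
  rw [cnj, inv_pow, inv_eq_iff_mul_eq_one, ← pow_mul, ← pow_add]
  have : (2 * k - 1) * (k - 1) + (k - 1) = 2 * (k * (k - 1)) := by
    obtain ⟨m, rfl⟩ : ∃ m, k = m + 1 := ⟨k - 1, by omega⟩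
    have h1 : 2 * (m + 1) - 1 = 2 * m + 1 := by omega
    rw [h1, Nat.add_sub_cancel]
    ring
  rw [this, h.1]

theorem cnj2 (hk : 3 ≤ k) (h : IsNode k ζ) : (cnj k ζ) ^ k = ζ⁻¹ ^ k := by
  rw [cnj, inv_pow, inv_pow, inv_inj, ← pow_mul]
  have : (2 * k - 1) * k = 2 * (k * (k - 1)) + k := by
    obtain ⟨m, rfl⟩ : ∃ m, k = m + 1 := ⟨k - 1, by omega⟩
    have h1 : 2 * (m + 1) - 1 = 2 * m + 1 := by omega
    rw [h1, Nat.add_sub_cancel]
    ring
  rw [this, pow_add, h.1, one_mul]

theorem cpow {v w : Fˣ} {n : ℕ} (h : v ^ n = w ^ n) (r : PowerSeries F) :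
    (PowerSeries.C (v : F) * r) ^ n = (PowerSeries.C (w : F) * r) ^ n := by
  rw [mul_pow, mul_pow, ← map_pow, ← map_pow, ← Units.val_pow_eq_pow_val, h,
    Units.val_pow_eq_pow_val]

theorem lev0 (hk : 3 ≤ k) (h : IsNode k ζ) (h' : IsRho k ρ) (p : MvPolynomial (Fin 2) F) :
    ed 0 (MvPolynomial.aeval ![ex k ζ ρ, ey k ζ ρ] p) = lev k (cnj k ζ) ρ p := by
  have hB : ed 0 (eB k ζ ρ) = 1 := by
    rw [eB, ed_im_ne (by decide), cres h'.1, map_one]
  have hB' : ed 0 (eB' k ζ ρ) = 1 := by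
    rw [eB', ed_im_ne (by decide), cinv (cres h'.1 _), map_one]
  have hA : ed 0 (eA ρ) = ρ := ed_im_self 0 ρ
  have hA' : ed 0 (eA' ρ) = ρ⁻¹ := ed_im_self 0 ρ⁻¹
  have e1 : (PowerSeries.C ((cnj k ζ : Fˣ) : F) * ρ) ^ (k - 1) +
      ((PowerSeries.C ((cnj k ζ : Fˣ) : F) * ρ)⁻¹) ^ (k - 1) = ed 0 (ex k ζ ρ) := by
    rw [ed_ex, hA, hA', hB, hB', mul_one, mul_one, uinv h'.1, cpow (cnj1 hk h)]
    congr 1
    apply cpow
    rw [inv_pow, cnj1 hk h, inv_pow]
  have e2 : (PowerSeries.C ((cnj k ζ : Fˣ) : F) * ρ) ^ k +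
      ((PowerSeries.C ((cnj k ζ : Fˣ) : F) * ρ)⁻¹) ^ k = ed 0 (ey k ζ ρ) := by
    rw [ed_ey, hA, hA', hB, hB', one_mul, one_mul, uinv h'.1, cpow (cnj2 hk h), add_comm]
    congr 1
    apply cpow
    rw [inv_pow, cnj2 hk h, inv_pow, inv_inv]
  rw [ed_aeval, lev, e1, e2]

theorem lev1 (h' : IsRho k ρ) (p : MvPolynomial (Fin 2) F) :
    ed 1 (MvPolynomial.aeval ![ex k ζ ρ, ey k ζ ρ] p) =
      lev k ζ (PowerSeries.rescale ((ζ : F) ^ (k * (k - 1))) ρ) p := by
  have hA : ed 1 (eA ρ) = 1 := by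
    rw [eA, ed_im_ne (by decide), h'.1, map_one]
  have hA' : ed 1 (eA' ρ) = 1 := by
    rw [eA', ed_im_ne (by decide), cinv h'.1, map_one]
  have hB : ed 1 (eB k ζ ρ) = PowerSeries.rescale (cc k ζ) ρ := ed_im_self 1 _
  have hB' : ed 1 (eB' k ζ ρ) = (PowerSeries.rescale (cc k ζ) ρ)⁻¹ := ed_im_self 1 _
  have e0 : (ζ : F) ^ (k * (k - 1)) = cc k ζ := rfl
  rw [ed_aeval, lev, ed_ex, ed_ey, hA, hA', hB, hB', one_mul, one_mul, mul_one, mul_one, e0,
    uinv (cres h'.1 _)]

theorem t : S_PHI := by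
  intro F _ _ k ζ ρ a L hk hζ hρ ha haL
  have hb : 0 < L - a := by omega
  refine ⟨psi ha hb (ex k ζ ρ), psi ha hb (ey k ζ ρ), ?_, ?_, ?_, ?_, ?_⟩
  · have h1 := congrArg (psi ha hb) (rel hζ hρ)
    rw [map_sub, map_mul, psi_X0, psi_X1] at h1
    have h2 := hom_dickson (psi ha hb : R2 F →ₐ[F] SS F).toRingHom k (ex k ζ ρ)
    have h3 := hom_dickson (psi ha hb : R2 F →ₐ[F] SS F).toRingHom (k - 1) (ey k ζ ρ)
    have h4 : (Polynomial.dickson 1 (1 : SS F) k).eval (psi ha hb (ex k ζ ρ)) =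
      psi ha hb ((Polynomial.dickson 1 (1 : R2 F) k).eval (ex k ζ ρ)) := h2.symm
    have h5 : (Polynomial.dickson 1 (1 : SS F) (k - 1)).eval (psi ha hb (ey k ζ ρ)) =
      psi ha hb ((Polynomial.dickson 1 (1 : R2 F) (k - 1)).eval (ey k ζ ρ)) := h3.symm
    rw [h4, h5, h1, mul_mul_mul_comm, ← map_mul, ← pow_add, ← LaurentPolynomial.T_add]
    have h6 : a + (L - a) = L := by omega
    rw [h6]
    norm_num
  · intro h2a u
    rw [cc_evK]
    have h2 := hom_ddickson (psi ha hb : R2 F →ₐ[F] SS F).toRingHom k (ex k ζ ρ)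
    have h4 : (Polynomial.derivative (Polynomial.dickson 1 (1 : SS F) k)).eval
        (psi ha hb (ex k ζ ρ)) = psi ha hb
        ((Polynomial.derivative (Polynomial.dickson 1 (1 : R2 F) k)).eval (ex k ζ ρ)) := h2.symm
    rw [h4]
    intro h5
    have h6 := (IsFractionRing.injective (OO F) (KK F))
      (h5.trans (map_zero (algebraMap (OO F) (KK F))).symm)
    exact der_ne ha hb hk hζ hρ (by omega) u h6
  · intro p N n h
    rw [Ph_psi] at h
    exact psi_supp ha hb _ N n h
  · intro p n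
    rw [Ph_psi, psi_ed0, lev0 hk hζ hρ]
  · intro p n
    rw [Ph_psi, psi_ed1, lev1 hρ]

end Pool.Agent.Helper66.T1.PHI
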